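import Pool.Agent.X137.MW.Polar

set_option autoImplicit false

/-!
# A non-canonical planar symmetrization

There is a symmetrization of the nonempty compact convex subsets of the plane that is monotonic,
invariant on `o`-symmetric sets and `V₁`-preserving and that maps every segment whose endpoints
are linearly independent to a set that is not a segment.
-/

namespace Pool.Agent.Results.MP_84aa88_gt.NotCanonical

open MeasureTheory Set

/-- The Euclidean plane. -/
abbrev Plane := EuclideanSpace ℝ (Fin 2)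

/-- The support function `h_K(v) = sup_{y ∈ K} ⟨y, v⟩`. -/
noncomputable def supportFn (K : Set Plane) (v : Plane) : ℝ :=
  sSup ((fun y : Plane => @inner ℝ Plane _ y v) '' K)

/-- The first intrinsic volume in the plane (half the perimeter), `V₁(K) = (1/2) ∫_{S¹} h_K`. -/
noncomputable def V1 (K : Set Plane) : ℝ :=
  (1 / 2) * ∫ u : Metric.sphere (0 : Plane) 1, supportFn K (u : Plane)
    ∂((volume : Measure Plane).toSphere)

/-- Nonempty compact convex subsets of the plane. -/
def K2 : Set (Set Plane) := {K | K.Nonempty ∧ IsCompact K ∧ Convex ℝ K}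

/-- `K = -K`. -/
def OSymm (K : Set Plane) : Prop := K = (fun x => -x) '' K

/-- There is a symmetrization `D` of the class of nonempty compact convex subsets of the plane
that is monotonic, invariant on `o`-symmetric sets and `V₁`-preserving, and such that `D` maps no
segment `[a, b]` with linearly independent endpoints to a segment (in particular `D` is not
canonical). -/
theorem result : ∃ D : Set Plane → Set Plane,
    (∀ K ∈ K2, D K ∈ K2 ∧ OSymm (D K)) ∧
    (∀ K ∈ K2, ∀ L ∈ K2, K ⊆ L → D K ⊆ D L) ∧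
    (∀ K ∈ K2, OSymm K → D K = K) ∧
    (∀ K ∈ K2, V1 (D K) = V1 K) ∧
    (∀ a b : Plane, LinearIndependent ℝ ![a, b] →
      ¬ ∃ c d : Plane, D (segment ℝ a b) = segment ℝ c d) ∧
    ¬ (∀ a b : Plane, ∃ c d : Plane, D (segment ℝ a b) = segment ℝ c d) := by
  have hosym : ∀ K : Set Plane, (∀ x ∈ K, -x ∈ K) ↔ OSymm K := by
    intro K
    constructor
    · intro h
      apply Subset.antisymm
      · intro x hx
        exact ⟨-x, h x hx, neg_neg x⟩
      · rintro _ ⟨x, hx, rfl⟩
        exact h x hx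
    · intro h x hx
      have h' : -x ∈ (fun x => -x) '' K := ⟨x, hx, rfl⟩
      rw [← h] at h'
      exact h'
  have key : ∀ a b : Plane, LinearIndependent ℝ ![a, b] →
      ¬ ∃ c d : Plane, Pool.Agent.X137.MW.D (segment ℝ a b) = segment ℝ c d := by
    rintro a b hab ⟨c, d, hcd⟩
    have hseg : IsCompact (segment ℝ a b) := by
      rw [segment_eq_image]
      exact isCompact_Icc.image (by fun_prop)
    have ha : a ∈ segment ℝ a b := left_mem_segment ℝ a b
    have hb : b ∈ segment ℝ a b := right_mem_segment ℝ a b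
    have hne : a ≠ b := by
      intro h
      have := hab.injective.ne (show (0 : Fin 2) ≠ 1 by decide)
      exact this (by simpa using h)
    have hV := Pool.Agent.X137.MW.V_pos hseg ha hb hne
    have hlam := Pool.Agent.X137.MW.lam_pos hseg ⟨a, ha⟩ hV
    set l := Pool.Agent.X137.MW.lam (segment ℝ a b) with hl
    have h0 := Pool.Agent.X137.MW.zero_mem_cone0 (K := segment ℝ a b) ⟨a, ha⟩
    have hsub := Pool.Agent.X137.MW.subset_cone0 (segment ℝ a b)
    have m1 : l • ((1/2 : ℝ) • (a - 0)) ∈ Pool.Agent.X137.MW.D (segment ℝ a b) :=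
      ⟨_, ⟨a, hsub ha, 0, h0, rfl⟩, rfl⟩
    have m2 : l • ((1/2 : ℝ) • (b - 0)) ∈ Pool.Agent.X137.MW.D (segment ℝ a b) :=
      ⟨_, ⟨b, hsub hb, 0, h0, rfl⟩, rfl⟩
    have m3 : l • ((1/2 : ℝ) • (0 - a)) ∈ Pool.Agent.X137.MW.D (segment ℝ a b) :=
      ⟨_, ⟨0, h0, a, hsub ha, rfl⟩, rfl⟩
    rw [hcd, segment_eq_image'] at m1 m2 m3
    obtain ⟨t1, -, e1⟩ := m1
    obtain ⟨t2, -, e2⟩ := m2
    obtain ⟨t3, -, e3⟩ := m3
    simp only at e1 e2 e3
    -- `l a = (t1 - t3) (d - c)` and `l (b + a) / 2 = (t2 - t3) (d - c)`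
    have f1 : l • a = (t1 - t3) • (d - c) := by
      have : (c + t1 • (d - c)) - (c + t3 • (d - c)) =
          l • ((1/2 : ℝ) • (a - 0)) - l • ((1/2 : ℝ) • (0 - a)) := by rw [e1, e3]
      have h2 : l • ((1/2 : ℝ) • (a - 0)) - l • ((1/2 : ℝ) • (0 - a)) = l • a := by module
      rw [← h2, ← this]
      module
    have f2 : (l / 2) • (b + a) = (t2 - t3) • (d - c) := by
      have : (c + t2 • (d - c)) - (c + t3 • (d - c)) =
          l • ((1/2 : ℝ) • (b - 0)) - l • ((1/2 : ℝ) • (0 - a)) := by rw [e2, e3]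
      have h2 : l • ((1/2 : ℝ) • (b - 0)) - l • ((1/2 : ℝ) • (0 - a)) = (l / 2) • (b + a) := by
        module
      rw [← h2, ← this]
      module
    have f3 : ((t1 - t3) * (l / 2) - (t2 - t3) * l) • a + ((t1 - t3) * (l / 2)) • b = 0 := by
      have h1 : (t1 - t3) • ((l / 2) • (b + a)) = (t2 - t3) • (l • a) := by
        rw [f1, f2, smul_smul, smul_smul, mul_comm]
      have h2 : (t1 - t3) • ((l / 2) • (b + a)) - (t2 - t3) • (l • a) = 0 := sub_eq_zero.2 h1
      rw [← h2]
      module
    have hli := (LinearIndependent.pair_iff.1 hab) _ _ f3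
    have h13 : t1 - t3 = 0 := by
      rcases mul_eq_zero.1 hli.2 with h | h
      · exact h
      · exfalso; linarith
    rw [h13, zero_smul] at f1
    rcases smul_eq_zero.1 f1 with h | h
    · exact hlam.ne' h
    · have := hab.ne_zero 0
      exact this (by simpa using h)
  refine ⟨Pool.Agent.X137.MW.D, ?_, ?_, ?_, ?_, key, ?_⟩
  · rintro K ⟨h1, h2, h3⟩
    exact ⟨⟨Pool.Agent.X137.MW.D_nonempty h1, Pool.Agent.X137.MW.D_compact h2,
      Pool.Agent.X137.MW.D_convex h3⟩, (hosym _).1 fun x hx => Pool.Agent.X137.MW.D_neg hx⟩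
  · rintro K ⟨h1, h2, h3⟩ L ⟨h4, h5, h6⟩ h
    exact Pool.Agent.X137.MW.D_mono h2 h1 h5 h6 h
  · rintro K ⟨h1, h2, h3⟩ hs
    exact Pool.Agent.X137.MW.D_eq_of_symm h2 h3 h1 ((hosym K).2 hs)
  · rintro K ⟨h1, h2, h3⟩
    have h := (Pool.Agent.X137.MW.V_eq_iff (n := 2) (by norm_num)
      (Pool.Agent.X137.MW.D_compact h2) (Pool.Agent.X137.MW.D_nonempty h1) h2 h1).1
      (Pool.Agent.X137.MW.V_D h2 h1)
    show (1 / 2) * Pool.Agent.X137.MW.sphInt _ = (1 / 2) * Pool.Agent.X137.MW.sphInt K
    rw [h]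
  · intro hcan
    have hli : LinearIndependent ℝ ![(EuclideanSpace.single 0 1 : Plane),
        EuclideanSpace.single 1 1] := by
      rw [LinearIndependent.pair_iff]
      intro s t hst
      have h0 := congrArg (fun x : Plane => x 0) hst
      have h1 := congrArg (fun x : Plane => x 1) hst
      simp at h0 h1
      exact ⟨h0, h1⟩
    exact key _ _ hli (hcan _ _)

end Pool.Agent.Results.MP_84aa88_gt.NotCanonical
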